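import Mathlib
import Pool.Agent.S07067

open Finset Filter Asymptotics Classical

namespace Pool.Agent.Results.MP_e3cf1a_co.QuadraticOrder

/-- The triples of the 3-uniform expansion of `G`: the vertex set is `V` together with one new
vertex for every edge of `G`, and each edge `uv` gives the triple `{u, v, z_uv}`. -/
def expansion {V : Type} (G : SimpleGraph V) : Set (Finset (V ⊕ G.edgeSet)) :=
  {t | ∃ (u v : V) (h : G.Adj u v),
    t = {Sum.inl u, Sum.inl v, Sum.inr ⟨s(u, v), (SimpleGraph.mem_edgeSet G).mpr h⟩}}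

/-- A crosscut of a set system `F`: a finite set of vertices with exactly one vertex in every
edge. -/
def IsCrosscut {W : Type} (F : Set (Finset W)) (X : Finset W) : Prop :=
  ∀ e ∈ F, ∃! x, x ∈ e ∧ x ∈ X

/-- the minimum size of a crosscut -/
noncomputable def sigma {W : Type} (F : Set (Finset W)) : ℕ :=
  sInf {m | ∃ X : Finset W, IsCrosscut F X ∧ X.card = m}

/-- `H` contains a copy of `F` -/
def Contains {W : Type} {n : ℕ} (F : Set (Finset W)) (H : Finset (Finset (Fin n))) : Prop :=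
  ∃ φ : W → Fin n, Function.Injective φ ∧ ∀ e ∈ F, e.image φ ∈ H

/-- the Turán number `ex_3(n, F)` -/
noncomputable def ex3 {W : Type} (n : ℕ) (F : Set (Finset W)) : ℕ :=
  sSup {m | ∃ H : Finset (Finset (Fin n)), (∀ e ∈ H, e.card = 3) ∧ ¬ Contains F H ∧ H.card = m}

lemma crosscut_iff {V : Type} (G : SimpleGraph V) (X : Finset (V ⊕ G.edgeSet)) :
    IsCrosscut (expansion G) X ↔
      ∀ (u v : V) (h : G.Adj u v),
          ((Sum.inl u : V ⊕ G.edgeSet) ∈ X ∧ (Sum.inl v : V ⊕ G.edgeSet) ∉ X ∧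
              (Sum.inr ⟨s(u, v), (SimpleGraph.mem_edgeSet G).mpr h⟩ : V ⊕ G.edgeSet) ∉ X) ∨
          ((Sum.inl u : V ⊕ G.edgeSet) ∉ X ∧ (Sum.inl v : V ⊕ G.edgeSet) ∈ X ∧
              (Sum.inr ⟨s(u, v), (SimpleGraph.mem_edgeSet G).mpr h⟩ : V ⊕ G.edgeSet) ∉ X) ∨
          ((Sum.inl u : V ⊕ G.edgeSet) ∉ X ∧ (Sum.inl v : V ⊕ G.edgeSet) ∉ X ∧
              (Sum.inr ⟨s(u, v), (SimpleGraph.mem_edgeSet G).mpr h⟩ : V ⊕ G.edgeSet) ∈ X) := by
  have key : ∀ (a b c : V ⊕ G.edgeSet), a ≠ b → a ≠ c → b ≠ c →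
      ((∃! x, (x = a ∨ x = b ∨ x = c) ∧ x ∈ X) ↔
        ((a ∈ X ∧ b ∉ X ∧ c ∉ X) ∨ (a ∉ X ∧ b ∈ X ∧ c ∉ X) ∨ (a ∉ X ∧ b ∉ X ∧ c ∈ X))) := by
    intro a b c hab hac hbc
    constructor
    · rintro ⟨x, ⟨h1 | h1 | h1, h2⟩, h3⟩
      · subst h1
        left
        exact ⟨h2, fun h => hab (h3 b ⟨Or.inr (Or.inl rfl), h⟩).symm,
          fun h => hac (h3 c ⟨Or.inr (Or.inr rfl), h⟩).symm⟩
      · subst h1
        right; left
        exact ⟨fun h => hab (h3 a ⟨Or.inl rfl, h⟩), h2,
          fun h => hbc (h3 c ⟨Or.inr (Or.inr rfl), h⟩).symm⟩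
      · subst h1
        right; right
        exact ⟨fun h => hac (h3 a ⟨Or.inl rfl, h⟩), fun h => hbc (h3 b ⟨Or.inr (Or.inl rfl), h⟩),
          h2⟩
    · rintro (⟨h1, h2, h3⟩ | ⟨h1, h2, h3⟩ | ⟨h1, h2, h3⟩)
      · refine ⟨a, ⟨Or.inl rfl, h1⟩, ?_⟩
        rintro y ⟨h4 | h4 | h4, h5⟩
        · exact h4
        · exact absurd (h4 ▸ h5) h2
        · exact absurd (h4 ▸ h5) h3
      · refine ⟨b, ⟨Or.inr (Or.inl rfl), h2⟩, ?_⟩
        rintro y ⟨h4 | h4 | h4, h5⟩
        · exact absurd (h4 ▸ h5) h1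
        · exact h4
        · exact absurd (h4 ▸ h5) h3
      · refine ⟨c, ⟨Or.inr (Or.inr rfl), h3⟩, ?_⟩
        rintro y ⟨h4 | h4 | h4, h5⟩
        · exact absurd (h4 ▸ h5) h1
        · exact absurd (h4 ▸ h5) h2
        · exact h4
  constructor
  · intro hX u v h
    have h1 := hX _ ⟨u, v, h, rfl⟩
    simp only [Finset.mem_insert, Finset.mem_singleton] at h1
    exact (key _ _ _ (by simpa using h.ne) (by simp) (by simp)).1 h1
  · rintro hX e ⟨u, v, h, rfl⟩
    simp only [Finset.mem_insert, Finset.mem_singleton]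
    exact (key _ _ _ (by simpa using h.ne) (by simp) (by simp)).2 (hX u v h)

lemma ex3_bdd {W : Type} (n : ℕ) (F : Set (Finset W)) :
    BddAbove {m | ∃ H : Finset (Finset (Fin n)), (∀ e ∈ H, e.card = 3) ∧ ¬ Contains F H ∧
      H.card = m} := by
  refine ⟨Fintype.card (Finset (Fin n)), ?_⟩
  rintro m ⟨H, -, -, rfl⟩
  exact Finset.card_le_univ H

/-- upper bound -/
theorem upper {V : Type} [Fintype V] (G : SimpleGraph V) (hσ : sigma (expansion G) = 3) :
    ∃ C : ℝ, ∀ n : ℕ, (ex3 n (expansion G) : ℝ) ≤ C * (n : ℝ) ^ 2 := by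
  have hne : {m | ∃ X : Finset (V ⊕ G.edgeSet), IsCrosscut (expansion G) X ∧ X.card = m}.Nonempty := by
    by_contra hcon
    rw [Set.not_nonempty_iff_eq_empty] at hcon
    rw [sigma, hcon, Nat.sInf_empty] at hσ
    omega
  obtain ⟨X, hX, hXc⟩ := Nat.sInf_mem hne
  have hmin : ∀ X : Finset (V ⊕ G.edgeSet), IsCrosscut (expansion G) X → 3 ≤ X.card := by
    intro Y hY
    rw [← hσ]
    exact Nat.sInf_le ⟨Y, hY, rfl⟩
  obtain ⟨C, hC⟩ := Pool.Agent.S07067.result V G
    ⟨⟨X, by rw [hXc]; exact hσ, (crosscut_iff G X).1 hX⟩,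
      fun Y hY => hmin Y ((crosscut_iff G Y).2 hY)⟩
  refine ⟨C, fun n => ?_⟩
  have hex : {m | ∃ H : Finset (Finset (Fin n)), (∀ e ∈ H, e.card = 3) ∧
      ¬ Contains (expansion G) H ∧ H.card = m}.Nonempty := by
    refine ⟨0, ∅, by simp, ?_, by simp⟩
    rintro ⟨φ, -, hφ⟩
    -- G has an edge since sigma = 3
    have hedge : ∃ u v, G.Adj u v := by
      by_contra hno
      push Not at hno
      have : IsCrosscut (expansion G) (∅ : Finset (V ⊕ G.edgeSet)) := by
        rintro e ⟨u, v, h, -⟩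
        exact absurd h (hno u v)
      have := hmin _ this
      simp at this
    obtain ⟨u, v, h⟩ := hedge
    have := hφ _ ⟨u, v, h, rfl⟩
    simp at this
  obtain ⟨H, hH3, hHfree, hHc⟩ := Nat.sSup_mem hex (ex3_bdd n _)
  have h1 := hC n H hH3 (by
    rintro ⟨f, hf, g, hg, hfg, hall⟩
    apply hHfree
    refine ⟨Sum.elim f g, ?_, ?_⟩
    · rintro (a | a) (b | b) hab
      · simp only [Sum.elim_inl] at hab
        rw [hf hab]
      · simp only [Sum.elim_inl, Sum.elim_inr] at hab
        exact absurd hab.symm (hfg b a)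
      · simp only [Sum.elim_inl, Sum.elim_inr] at hab
        exact absurd hab (hfg a b)
      · simp only [Sum.elim_inr] at hab
        rw [hg hab]
    · rintro e ⟨u, v, h, rfl⟩
      have := hall u v h
      simpa [Finset.image_insert] using this)
  have h2 : ex3 n (expansion G) = H.card := hHc.symm
  rw [h2]
  exact h1

/-- triples meeting a fixed pair in exactly one vertex -/
noncomputable def cross (n : ℕ) (a b : Fin n) : Finset (Finset (Fin n)) :=
  univ.filter (fun e => e.card = 3 ∧ ∃! x, x ∈ e ∧ (x = a ∨ x = b))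

lemma cross_free {V : Type} [Fintype V] (G : SimpleGraph V)
    (hmin : ∀ X : Finset (V ⊕ G.edgeSet), IsCrosscut (expansion G) X → 3 ≤ X.card) {n : ℕ}
    (a b : Fin n) : ¬ Contains (expansion G) (cross n a b) := by
  rintro ⟨φ, hφ, hall⟩
  have hX : IsCrosscut (expansion G) (univ.filter (fun w => φ w = a ∨ φ w = b)) := by
    intro e he
    have h1 := hall e he
    simp only [cross, Finset.mem_filter, Finset.mem_univ, true_and] at h1
    obtain ⟨x, ⟨hx1, hx2⟩, hx3⟩ := h1.2
    obtain ⟨w, hw, rfl⟩ := Finset.mem_image.1 hx1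
    refine ⟨w, ⟨hw, by simpa using hx2⟩, ?_⟩
    rintro w' ⟨hw', hw2⟩
    have hw3 : φ w' = a ∨ φ w' = b := by simpa using hw2
    exact hφ (hx3 (φ w') ⟨Finset.mem_image_of_mem _ hw', hw3⟩)
  have h3 := hmin _ hX
  have h4 : (univ.filter (fun w => φ w = a ∨ φ w = b)).card ≤
      ({a, b} : Finset (Fin n)).card :=
    Finset.card_le_card_of_injOn φ (fun w hw => by simpa using hw) (hφ.injOn)
  have h5 : ({a, b} : Finset (Fin n)).card ≤ 2 := Finset.card_le_two
  omega

lemma cross_card {n : ℕ} (a b : Fin n) (hab : a ≠ b) :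
    2 * (n - 2).choose 2 ≤ (cross n a b).card := by
  set S := (univ : Finset (Fin n)) \ {a, b} with hS
  have hScard : S.card = n - 2 := by
    rw [hS, Finset.card_sdiff_of_subset (Finset.subset_univ _), Finset.card_pair hab,
      Finset.card_univ, Fintype.card_fin]
  have haS : a ∉ S := by simp [hS]
  have hbS : b ∉ S := by simp [hS]
  have hsub : (S.powersetCard 2).image (fun p => insert a p) ∪
      (S.powersetCard 2).image (fun p => insert b p) ⊆ cross n a b := by
    intro e he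
    rw [Finset.mem_union, Finset.mem_image, Finset.mem_image] at he
    rcases he with ⟨p, hp, rfl⟩ | ⟨p, hp, rfl⟩
    · rw [Finset.mem_powersetCard] at hp
      have hap : a ∉ p := fun h => haS (hp.1 h)
      have hbp : b ∉ p := fun h => hbS (hp.1 h)
      simp only [cross, Finset.mem_filter, Finset.mem_univ, true_and]
      refine ⟨by rw [Finset.card_insert_of_notMem hap, hp.2], ?_⟩
      refine ⟨a, ⟨Finset.mem_insert_self _ _, Or.inl rfl⟩, ?_⟩
      rintro x ⟨h1, h2⟩
      rcases h2 with h2 | h2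
      · exact h2
      · rcases Finset.mem_insert.1 h1 with h1 | h1
        · exact h1
        · exact absurd (h2 ▸ h1) hbp
    · rw [Finset.mem_powersetCard] at hp
      have hap : a ∉ p := fun h => haS (hp.1 h)
      have hbp : b ∉ p := fun h => hbS (hp.1 h)
      simp only [cross, Finset.mem_filter, Finset.mem_univ, true_and]
      refine ⟨by rw [Finset.card_insert_of_notMem hbp, hp.2], ?_⟩
      refine ⟨b, ⟨Finset.mem_insert_self _ _, Or.inr rfl⟩, ?_⟩
      rintro x ⟨h1, h2⟩
      rcases h2 with h2 | h2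
      · rcases Finset.mem_insert.1 h1 with h1 | h1
        · exact h1
        · exact absurd (h2 ▸ h1) hap
      · exact h2
  refine le_trans ?_ (Finset.card_le_card hsub)
  rw [Finset.card_union_of_disjoint]
  · have hinj : ∀ c : Fin n, c ∉ S → Set.InjOn (fun p : Finset (Fin n) => insert c p)
        (S.powersetCard 2 : Finset (Finset (Fin n))) := by
      intro c hc p hp q hq hpq
      have hp := (Finset.mem_powersetCard.1 (Finset.mem_coe.1 hp)).1
      have hq := (Finset.mem_powersetCard.1 (Finset.mem_coe.1 hq)).1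
      have h1 : c ∉ p := fun h => hc (hp h)
      have h2 : c ∉ q := fun h => hc (hq h)
      have h3 : insert c p = insert c q := hpq
      rw [← Finset.erase_insert h1, h3, Finset.erase_insert h2]
    rw [Finset.card_image_of_injOn (hinj a haS), Finset.card_image_of_injOn (hinj b hbS),
      Finset.card_powersetCard, hScard]
    omega
  · rw [Finset.disjoint_left]
    intro e h1 h2
    rw [Finset.mem_image] at h1 h2
    obtain ⟨p, hp, rfl⟩ := h1
    obtain ⟨q, hq, hpq⟩ := h2
    rw [Finset.mem_powersetCard] at hq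
    have : a ∈ insert b q := by rw [hpq]; exact Finset.mem_insert_self _ _
    rw [Finset.mem_insert] at this
    rcases this with h | h
    · exact hab h
    · exact haS (hq.1 h)

/-- lower bound -/
theorem lower {V : Type} [Fintype V] (G : SimpleGraph V) (hσ : sigma (expansion G) = 3) (n : ℕ)
    (hn : 2 ≤ n) : 2 * (n - 2).choose 2 ≤ ex3 n (expansion G) := by
  have hmin : ∀ X : Finset (V ⊕ G.edgeSet), IsCrosscut (expansion G) X → 3 ≤ X.card := by
    intro Y hY
    rw [← hσ]
    exact Nat.sInf_le ⟨Y, hY, rfl⟩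
  let a : Fin n := ⟨0, by omega⟩
  let b : Fin n := ⟨1, by omega⟩
  have hab : a ≠ b := by
    intro h
    have := congrArg Fin.val h
    simp [a, b] at this
  refine le_trans (cross_card a b hab) (le_csSup (ex3_bdd n _) ?_)
  refine ⟨cross n a b, ?_, cross_free G hmin a b, rfl⟩
  intro e he
  simp only [cross, Finset.mem_filter, Finset.mem_univ, true_and] at he
  exact he.1

/-- For every graph `G` whose expansion has crosscut number three, `ex_3(n, G^+)` has order of
magnitude `n ^ 2`. -/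
theorem result (V : Type) [Fintype V] (G : SimpleGraph V) (hσ : sigma (expansion G) = 3) :
    (fun n : ℕ => (ex3 n (expansion G) : ℝ)) =Θ[atTop] (fun n : ℕ => (n : ℝ) ^ 2) := by
  constructor
  · obtain ⟨C, hC⟩ := upper G hσ
    apply IsBigO.of_bound C
    filter_upwards with n
    rw [Real.norm_of_nonneg (by positivity), Real.norm_of_nonneg (by positivity)]
    exact hC n
  · apply IsBigO.of_bound 4
    filter_upwards [eventually_ge_atTop 6] with n hn
    rw [Real.norm_of_nonneg (by positivity), Real.norm_of_nonneg (by positivity)]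
    have h1 := lower G hσ n (by omega)
    obtain ⟨m, rfl⟩ : ∃ m, n = m + 2 := ⟨n - 2, by omega⟩
    rw [Nat.add_sub_cancel] at h1
    have h2 : ((m.choose 2 : ℕ) : ℝ) = (m : ℝ) * ((m : ℝ) - 1) / 2 := Nat.cast_choose_two ℝ m
    have h3 : (2 : ℝ) * ((m.choose 2 : ℕ) : ℝ) ≤ (ex3 (m + 2) (expansion G) : ℝ) := by
      exact_mod_cast h1
    rw [h2] at h3
    have hm : (4 : ℝ) ≤ m := by exact_mod_cast (by omega : 4 ≤ m)
    push_cast
    nlinarith

end Pool.Agent.Results.MP_e3cf1a_co.QuadraticOrder
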